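import Pool.Agent.R65.UT.Stm

/-! Counting permutations with two prescribed values -/

namespace Pool.Agent.R65.UT

open Finset Matrix

theorem count2_tau {n : ℕ} (a b a' b' : Fin n) (hab : a ≠ b) (hab' : a' ≠ b') :
    ∃ τ : Equiv.Perm (Fin n), τ a = a' ∧ τ b = b' := by
  have h1 : Equiv.swap a a' b ≠ a' := by
    intro h
    apply hab
    apply (Equiv.swap a a').injective
    rw [h, Equiv.swap_apply_left]
  refine ⟨Equiv.swap (Equiv.swap a a' b) b' * Equiv.swap a a', ?_, ?_⟩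
  · rw [Equiv.Perm.mul_apply, Equiv.swap_apply_left]
    exact Equiv.swap_apply_of_ne_of_ne h1.symm hab'
  · rw [Equiv.Perm.mul_apply, Equiv.swap_apply_left]

theorem count2 : StmCount2 := by
  intro n a b hab f hf
  have key : ∀ a' b' : Fin n, a' ≠ b' →
      ∑ σ : Equiv.Perm (Fin n), f (σ a') (σ b') = ∑ σ : Equiv.Perm (Fin n), f (σ a) (σ b) := by
    intro a' b' h'
    obtain ⟨τ, rfl, rfl⟩ := count2_tau a b a' b' hab h'
    exact Equiv.sum_comp (Equiv.mulRight τ) (fun σ : Equiv.Perm (Fin n) => f (σ a) (σ b))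
  have h1 : ∑ a' : Fin n, ∑ b' : Fin n, ∑ σ : Equiv.Perm (Fin n), f (σ a') (σ b') =
      n.factorial * ∑ x, ∑ y, f x y := by
    have h2 : ∑ a' : Fin n, ∑ b' : Fin n, ∑ σ : Equiv.Perm (Fin n), f (σ a') (σ b') =
        ∑ σ : Equiv.Perm (Fin n), ∑ a' : Fin n, ∑ b' : Fin n, f (σ a') (σ b') := by
      rw [Finset.sum_comm]
      rw [Finset.sum_congr rfl fun b' _ => Finset.sum_comm]
      rw [Finset.sum_comm]
      refine Finset.sum_congr rfl fun σ _ => ?_
      rw [Finset.sum_comm]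
    rw [h2]
    have h3 : ∀ σ : Equiv.Perm (Fin n), ∑ a' : Fin n, ∑ b' : Fin n, f (σ a') (σ b') =
        ∑ x, ∑ y, f x y := by
      intro σ
      rw [← Equiv.sum_comp σ (fun x => ∑ y, f x y)]
      refine Finset.sum_congr rfl fun a' _ => ?_
      exact Equiv.sum_comp σ (fun y => f (σ a') y)
    rw [Finset.sum_congr rfl fun σ _ => h3 σ, Finset.sum_const, Finset.card_univ,
      Fintype.card_perm, Fintype.card_fin, smul_eq_mul]
  rw [← h1]
  have h4 : ∀ a' : Fin n, ∑ b' : Fin n, ∑ σ : Equiv.Perm (Fin n), f (σ a') (σ b') =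
      (n - 1) * ∑ σ : Equiv.Perm (Fin n), f (σ a) (σ b) := by
    intro a'
    rw [← Finset.add_sum_erase _ _ (Finset.mem_univ a')]
    have h5 : ∑ σ : Equiv.Perm (Fin n), f (σ a') (σ a') = 0 :=
      Finset.sum_eq_zero fun σ _ => hf _
    rw [h5, zero_add, Finset.sum_congr rfl fun b' hb' => key a' b' (Finset.ne_of_mem_erase hb').symm,
      Finset.sum_const, Finset.card_erase_of_mem (Finset.mem_univ _), Finset.card_univ,
      Fintype.card_fin, smul_eq_mul]
  rw [Finset.sum_congr rfl fun a' _ => h4 a', Finset.sum_const, Finset.card_univ,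
    Fintype.card_fin, smul_eq_mul, mul_assoc]

end Pool.Agent.R65.UT
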