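import Pool.Agent.R65.UT.Stm

/-! Counting permutations through the images of four points (StmCount4). -/

namespace Pool.Agent.R65.UT

open Finset

namespace C4

/-- injections of a subtype into `Fin n` extend to permutations -/
theorem exists_perm {n : ℕ} {p q : Fin 4 → Fin n} (hp : Function.Injective p)
    (hq : Function.Injective q) : ∃ τ : Equiv.Perm (Fin n), ∀ i, τ (p i) = q i := by
  classical
  let e : Set.range p ≃ Set.range q := (Equiv.ofInjective p hp).symm.trans (Equiv.ofInjective q hq)
  refine ⟨e.extendSubtype, fun i => ?_⟩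
  rw [Equiv.extendSubtype_apply_of_mem e (p i) ⟨i, rfl⟩]
  simp only [e, Equiv.trans_apply]
  have : (Equiv.ofInjective p hp).symm ⟨p i, ⟨i, rfl⟩⟩ = i := by
    rw [Equiv.symm_apply_eq]; rfl
  rw [this]
  rfl

/-- number of permutations with prescribed images of four points -/
def cnt {n : ℕ} (p q : Fin 4 → Fin n) : ℕ :=
  (univ.filter fun σ : Equiv.Perm (Fin n) => ∀ i, σ (p i) = q i).card

theorem cnt_eq {n : ℕ} (p q q' : Fin 4 → Fin n) (hq : Function.Injective q)
    (hq' : Function.Injective q') : cnt p q = cnt p q' := by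
  classical
  obtain ⟨τ, hτ⟩ := exists_perm hq hq'
  unfold cnt
  refine Finset.card_bij (fun σ _ => σ.trans τ) ?_ ?_ ?_
  · intro σ hσ
    rw [Finset.mem_filter] at hσ ⊢
    refine ⟨mem_univ _, fun i => ?_⟩
    rw [Equiv.trans_apply, hσ.2 i, hτ i]
  · intro σ _ σ' _ h
    ext i
    have := congrArg (fun e : Equiv.Perm (Fin n) => e i) h
    simp only [Equiv.trans_apply] at this
    rw [τ.injective this]
  · intro σ hσ
    rw [Finset.mem_filter] at hσ
    refine ⟨σ.trans τ.symm, ?_, ?_⟩
    · rw [Finset.mem_filter]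
      refine ⟨mem_univ _, fun i => ?_⟩
      rw [Equiv.trans_apply, hσ.2 i, ← hτ i, Equiv.symm_apply_apply]
    · ext i; simp

/-- the total number of permutations -/
theorem cnt_total {n : ℕ} (p : Fin 4 → Fin n) (hp : Function.Injective p) :
    n * (n - 1) * (n - 2) * (n - 3) * cnt p p = n.factorial := by
  classical
  have h1 : (univ : Finset (Equiv.Perm (Fin n))).card = n.factorial := by
    rw [Finset.card_univ, Fintype.card_perm, Fintype.card_fin]
  have h2 : (univ : Finset (Equiv.Perm (Fin n))).card =
      ∑ q ∈ (univ : Finset (Fin 4 → Fin n)), cnt p q := by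
    rw [Finset.card_eq_sum_card_fiberwise (f := fun σ : Equiv.Perm (Fin n) => fun i => σ (p i))
      (t := univ) (fun _ _ => by simp)]
    refine Finset.sum_congr rfl fun q _ => ?_
    unfold cnt
    congr 1
    ext σ
    simp [funext_iff]
  have h3 : ∑ q ∈ (univ : Finset (Fin 4 → Fin n)), cnt p q =
      ∑ q ∈ (univ : Finset (Fin 4 → Fin n)).filter Function.Injective, cnt p p := by
    rw [Finset.sum_filter]
    refine Finset.sum_congr rfl fun q _ => ?_
    split_ifs with h
    · exact cnt_eq p q p h hp
    · unfold cnt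
      rw [Finset.card_eq_zero, Finset.filter_eq_empty_iff]
      intro σ _ hσ
      apply h
      have : q = σ ∘ p := by funext i; exact (hσ i).symm
      rw [this]
      exact σ.injective.comp hp
  have h4 : ((univ : Finset (Fin 4 → Fin n)).filter Function.Injective).card =
      n * (n - 1) * (n - 2) * (n - 3) := by
    have h5 : ((univ : Finset (Fin 4 → Fin n)).filter Function.Injective).card =
        Fintype.card (Fin 4 ↪ Fin n) := by
      rw [← Fintype.card_subtype]
      exact Fintype.card_congr (Equiv.subtypeInjectiveEquivEmbedding _ _)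
    rw [h5, Fintype.card_embedding_eq, Fintype.card_fin, Fintype.card_fin]
    simp only [Nat.descFactorial]
    ring_nf
    try rfl
  rw [← h1, h2, h3, Finset.sum_const, h4, smul_eq_mul]

end C4

open C4 in
theorem count4 : StmCount4 := by
  intro n a b c d hab hac had hbc hbd hcd f g _ _
  classical
  set p : Fin 4 → Fin n := ![a, b, c, d] with hp
  have hpi : Function.Injective p := by
    intro i j hij
    fin_cases i <;> fin_cases j <;> simp_all
  have hsum : ∑ σ : Equiv.Perm (Fin n), f (σ a) (σ b) * g (σ c) (σ d) ≤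
      cnt p p * ((∑ x, ∑ y, f x y) * (∑ x, ∑ y, g x y)) := by
    have e1 : ∑ σ : Equiv.Perm (Fin n), f (σ a) (σ b) * g (σ c) (σ d) =
        ∑ q : Fin 4 → Fin n, cnt p q * (f (q 0) (q 1) * g (q 2) (q 3)) := by
      rw [← Finset.sum_fiberwise (univ : Finset (Equiv.Perm (Fin n)))
        (fun σ : Equiv.Perm (Fin n) => fun i => σ (p i))]
      refine Finset.sum_congr rfl fun q _ => ?_
      have : ∀ σ ∈ (univ : Finset (Equiv.Perm (Fin n))).filter
          (fun σ => (fun i => σ (p i)) = q), f (σ a) (σ b) * g (σ c) (σ d) =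
            f (q 0) (q 1) * g (q 2) (q 3) := by
        intro σ hσ
        rw [Finset.mem_filter] at hσ
        have h := hσ.2
        rw [← h]
        rfl
      rw [Finset.sum_congr rfl this, Finset.sum_const, smul_eq_mul]
      congr 1
      unfold cnt
      congr 1
      ext σ
      simp [funext_iff]
    have e2 : ∀ q : Fin 4 → Fin n, cnt p q ≤ cnt p p := by
      intro q
      by_cases h : Function.Injective q
      · exact (cnt_eq p q p h hpi).le
      · have : cnt p q = 0 := by
          unfold cnt
          rw [Finset.card_eq_zero, Finset.filter_eq_empty_iff]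
          intro σ _ hσ
          apply h
          have : q = σ ∘ p := by funext i; exact (hσ i).symm
          rw [this]
          exact σ.injective.comp hpi
        omega
    have e3 : ∑ q : Fin 4 → Fin n, f (q 0) (q 1) * g (q 2) (q 3) =
        (∑ x, ∑ y, f x y) * (∑ x, ∑ y, g x y) := by
      have e4 : ∑ q : Fin 4 → Fin n, f (q 0) (q 1) * g (q 2) (q 3) =
          ∑ t : (Fin n × Fin n) × (Fin n × Fin n), f t.1.1 t.1.2 * g t.2.1 t.2.2 := by
        refine Finset.sum_nbij' (fun q => ((q 0, q 1), (q 2, q 3)))
          (fun t => ![t.1.1, t.1.2, t.2.1, t.2.2]) ?_ ?_ ?_ ?_ ?_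
        · intro _ _; exact mem_univ _
        · intro _ _; exact mem_univ _
        · intro q _; funext i; fin_cases i <;> rfl
        · intro t _; rfl
        · intro q _; rfl
      rw [e4, Fintype.sum_prod_type, Fintype.sum_prod_type, Finset.sum_mul]
      refine Finset.sum_congr rfl fun x _ => ?_
      rw [Finset.sum_mul]
      refine Finset.sum_congr rfl fun y _ => ?_
      rw [Fintype.sum_prod_type, Finset.mul_sum]
      refine Finset.sum_congr rfl fun z _ => ?_
      rw [Finset.mul_sum]
    rw [e1, ← e3, Finset.mul_sum]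
    exact Finset.sum_le_sum fun q _ => Nat.mul_le_mul_right _ (e2 q)
  calc n * (n - 1) * (n - 2) * (n - 3) * ∑ σ : Equiv.Perm (Fin n), f (σ a) (σ b) * g (σ c) (σ d)
      ≤ n * (n - 1) * (n - 2) * (n - 3) *
        (cnt p p * ((∑ x, ∑ y, f x y) * (∑ x, ∑ y, g x y))) := Nat.mul_le_mul_left _ hsum
    _ = (n * (n - 1) * (n - 2) * (n - 3) * cnt p p) *
        ((∑ x, ∑ y, f x y) * (∑ x, ∑ y, g x y)) := by ring
    _ = n.factorial * ((∑ x, ∑ y, f x y) * (∑ x, ∑ y, g x y)) := by rw [cnt_total p hpi]

end Pool.Agent.R65.UT
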