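import Pool.Agent.R65.UT.Stm

/-! Averaging: a center (StmCenter from StmCount2). -/

namespace Pool.Agent.R65.UT

open Finset

theorem center (h2 : StmCount2) : StmCenter := by
  intro n q a b hab hn x K hx hρ
  by_contra hcon
  push Not at hcon
  -- sum over all permutations
  have hS : ∑ ρ : Equiv.Perm (Fin n), ∑ t, x (ρ (a t)) (ρ (b t)) ≤ n.factorial * K := by
    calc ∑ ρ : Equiv.Perm (Fin n), ∑ t, x (ρ (a t)) (ρ (b t))
        ≤ ∑ _ρ : Equiv.Perm (Fin n), K := Finset.sum_le_sum fun ρ _ => hρ ρ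
      _ = n.factorial * K := by
        rw [Finset.sum_const, Finset.card_univ, Fintype.card_perm, Fintype.card_fin, smul_eq_mul]
  have hE : n * (n - 1) * ∑ ρ : Equiv.Perm (Fin n), ∑ t, x (ρ (a t)) (ρ (b t)) =
      n.factorial * (q * ∑ i, ∑ j, x i j) := by
    rw [Finset.sum_comm, Finset.mul_sum]
    have h : ∀ t ∈ (univ : Finset (Fin q)),
        n * (n - 1) * ∑ ρ : Equiv.Perm (Fin n), x (ρ (a t)) (ρ (b t)) =
          n.factorial * ∑ i, ∑ j, x i j := by
      intro t _
      apply h2 n (a t) (b t) _ x hx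
      intro he
      have := @hab (Sum.inl t) (Sum.inr t) (by simpa using he)
      simp at this
    rw [Finset.sum_congr rfl h, Finset.sum_const, Finset.card_univ, Fintype.card_fin, smul_eq_mul]
    ring
  have h3 : n.factorial * (q * ∑ i, ∑ j, x i j) ≤ n.factorial * (n * ((n - 1) * K)) := by
    rw [← hE]
    calc n * (n - 1) * ∑ ρ : Equiv.Perm (Fin n), ∑ t, x (ρ (a t)) (ρ (b t))
        ≤ n * (n - 1) * (n.factorial * K) := Nat.mul_le_mul_left _ hS
      _ = n.factorial * (n * ((n - 1) * K)) := by ring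
  have h4 : q * ∑ i, ∑ j, x i j ≤ n * ((n - 1) * K) :=
    Nat.le_of_mul_le_mul_left h3 n.factorial_pos
  have h5 : n * ((n - 1) * K) < q * ∑ i, ∑ j, x i j := by
    rw [Finset.sum_comm, Finset.mul_sum]
    have : Nonempty (Fin n) := ⟨⟨0, hn⟩⟩
    calc n * ((n - 1) * K) = ∑ _c : Fin n, (n - 1) * K := by simp
      _ < ∑ c : Fin n, q * ∑ i, x i c :=
        Finset.sum_lt_sum_of_nonempty Finset.univ_nonempty fun c _ => hcon c
  omega

end Pool.Agent.R65.UT
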