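import Mathlib

/-!
Sign matrices with few negative entries are, up to permutations of the rows and of the
columns and negations of columns, upper triangular.
-/

namespace Pool.Agent.R65.UT

open Finset Matrix

/-- all entries are 1 or -1 -/
def IsSign {n : ℕ} (A : Matrix (Fin n) (Fin n) ℤ) : Prop := ∀ i j, A i j = 1 ∨ A i j = -1

/-- the set of positions of the entries -1 -/
def neg {n : ℕ} (A : Matrix (Fin n) (Fin n) ℤ) : Finset (Fin n × Fin n) :=
  univ.filter fun p => A p.1 p.2 = -1

/-- number of -1 in column j -/
def colneg {n : ℕ} (A : Matrix (Fin n) (Fin n) ℤ) (j : Fin n) : Finset (Fin n) :=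
  univ.filter fun i => A i j = -1

/-- triangular up to row and column permutations and column signs -/
def Tri {n : ℕ} (A : Matrix (Fin n) (Fin n) ℤ) : Prop :=
  ∃ (σ τ : Equiv.Perm (Fin n)) (δ : Fin n → ℤ), (∀ j, δ j = 1 ∨ δ j = -1) ∧
    ∀ i j, j < i → A (σ i) (τ j) * δ j = 1

lemma tri_neg {n : ℕ} {A : Matrix (Fin n) (Fin n) ℤ} (h : Tri (-A)) : Tri A := by
  obtain ⟨σ, τ, δ, hδ, hA⟩ := h
  refine ⟨σ, τ, fun j => - δ j, fun j => ?_, fun i j hij => ?_⟩
  · rcases hδ j with h | h <;> simp [h]
  · have := hA i j hij
    simp only [Matrix.neg_apply] at this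
    linarith

lemma card_neg_eq {n : ℕ} (A : Matrix (Fin n) (Fin n) ℤ) :
    (neg A).card = ∑ j, (colneg A j).card := by
  unfold neg colneg
  simp only [Finset.card_filter]
  rw [← Finset.univ_product_univ, Finset.sum_product_right]

/-- extension of a permutation by a new first element, as a function -/
def extFun {n : ℕ} (r : Fin (n+1)) (σ : Equiv.Perm (Fin n)) : Fin (n+1) → Fin (n+1) :=
  Fin.cases r (fun k => r.succAbove (σ k))

lemma extFun_inj {n : ℕ} (r : Fin (n+1)) (σ : Equiv.Perm (Fin n)) :
    Function.Injective (extFun r σ) := by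
  intro a b
  induction a using Fin.cases with
  | zero =>
    induction b using Fin.cases with
    | zero => intro _; rfl
    | succ b => intro h; exact absurd h.symm (Fin.succAbove_ne r _)
  | succ a =>
    induction b using Fin.cases with
    | zero => intro h; exact absurd h (Fin.succAbove_ne r _)
    | succ b =>
      intro h
      have h' : σ a = σ b := Fin.succAbove_right_injective h
      rw [σ.injective h']

/-- extension of a permutation by a new first element -/
noncomputable def ext {n : ℕ} (r : Fin (n+1)) (σ : Equiv.Perm (Fin n)) : Equiv.Perm (Fin (n+1)) :=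
  Equiv.ofBijective (extFun r σ) (Finite.injective_iff_bijective.1 (extFun_inj r σ))

@[simp] lemma ext_zero {n : ℕ} (r : Fin (n+1)) (σ : Equiv.Perm (Fin n)) : ext r σ 0 = r := rfl
@[simp] lemma ext_succ {n : ℕ} (r : Fin (n+1)) (σ : Equiv.Perm (Fin n)) (k : Fin n) :
    ext r σ k.succ = r.succAbove (σ k) := rfl

/-- elimination step -/
lemma tri_step {n : ℕ} (A : Matrix (Fin (n+1)) (Fin (n+1)) ℤ) (r c : Fin (n+1))
    (hc : ∀ i, i ≠ r → A i c = 1)
    (h : Tri (fun i j => A (r.succAbove i) (c.succAbove j))) : Tri A := by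
  obtain ⟨σ, τ, δ, hδ, hA⟩ := h
  refine ⟨ext r σ, ext c τ, fun j => Fin.cases 1 δ j, fun j => ?_, fun i j hij => ?_⟩
  · refine Fin.cases ?_ (fun j' => ?_) j
    · left; rfl
    · exact hδ j'
  · revert hij
    refine Fin.cases ?_ (fun i' => ?_) i
    · intro h; exact absurd h (Fin.not_lt_zero j)
    · refine Fin.cases ?_ (fun j' => ?_) j
      · intro _
        simp only [ext_succ, ext_zero, Fin.cases_zero, mul_one]
        exact hc _ (Fin.succAbove_ne r _)
      · intro h
        simpa using hA i' j' (by simpa using h)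

lemma tri_all_one {n : ℕ} (A : Matrix (Fin n) (Fin n) ℤ) (h : ∀ i j, A i j = 1) : Tri A :=
  ⟨1, 1, fun _ => 1, fun _ => Or.inl rfl, fun i j _ => by simp [h]⟩

/-- number of negative entries after deletion of a row and a column containing one -/
lemma card_sub {n : ℕ} (A : Matrix (Fin (n+1)) (Fin (n+1)) ℤ) (r c : Fin (n+1))
    (h : ∃ p : Fin (n+1) × Fin (n+1), (p.1 = r ∨ p.2 = c) ∧ A p.1 p.2 = -1) :
    (neg (fun i j => A (r.succAbove i) (c.succAbove j))).card + 1 ≤ (neg A).card := by
  obtain ⟨p, hp, hA⟩ := h
  let f : Fin n × Fin n → Fin (n+1) × Fin (n+1) := fun q => (r.succAbove q.1, c.succAbove q.2)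
  have hf : Function.Injective f := by
    intro a b hab
    have h1 := congrArg Prod.fst hab
    have h2 := congrArg Prod.snd hab
    exact Prod.ext (Fin.succAbove_right_injective h1) (Fin.succAbove_right_injective h2)
  have hcard : (neg (fun i j => A (r.succAbove i) (c.succAbove j))).card
      = ((neg (fun i j => A (r.succAbove i) (c.succAbove j))).image f).card :=
    (Finset.card_image_of_injective _ hf).symm
  have hnot : p ∉ (neg (fun i j => A (r.succAbove i) (c.succAbove j))).image f := by
    intro hmem
    obtain ⟨q, _, hq⟩ := Finset.mem_image.1 hmem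
    rcases hp with hp | hp
    · exact Fin.succAbove_ne r q.1 ((congrArg Prod.fst hq).trans hp)
    · exact Fin.succAbove_ne c q.2 ((congrArg Prod.snd hq).trans hp)
  rw [hcard, ← Finset.card_insert_of_notMem hnot]
  apply Finset.card_le_card
  intro x hx
  rcases Finset.mem_insert.1 hx with rfl | hx
  · simp [neg, hA]
  · obtain ⟨q, hq, rfl⟩ := Finset.mem_image.1 hx
    simp only [neg, Finset.mem_filter, Finset.mem_univ, true_and] at hq ⊢
    exact hq

lemma step_of_col {n : ℕ} (IH : ∀ A : Matrix (Fin n) (Fin n) ℤ, IsSign A →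
      (neg A).card ≤ n + 3 → Tri A) (A : Matrix (Fin (n+1)) (Fin (n+1)) ℤ) (hs : IsSign A)
    (hcard : (neg A).card ≤ n + 1 + 3) (c : Fin (n+1)) (hc : (colneg A c).card ≤ 1) : Tri A := by
  by_cases hall : ∀ i j, A i j = 1
  · exact tri_all_one A hall
  push Not at hall
  obtain ⟨i0, j0, h0⟩ := hall
  have h0' : A i0 j0 = -1 := (hs i0 j0).resolve_left h0
  have key : ∃ r : Fin (n+1), (∀ i, i ≠ r → A i c = 1) ∧
      ∃ p : Fin (n+1) × Fin (n+1), (p.1 = r ∨ p.2 = c) ∧ A p.1 p.2 = -1 := by
    by_cases he : ∃ r, A r c = -1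
    · obtain ⟨r, hr⟩ := he
      refine ⟨r, fun i hi => ?_, (r, c), Or.inl rfl, hr⟩
      by_contra hne
      have hi' : A i c = -1 := (hs i c).resolve_left hne
      have h2 := Finset.card_le_one.1 hc i (by simp [colneg, hi']) r (by simp [colneg, hr])
      exact hi h2
    · push Not at he
      exact ⟨i0, fun i _ => (hs i c).resolve_right (he i), (i0, j0), Or.inl rfl, h0'⟩
  obtain ⟨r, hr, hp⟩ := key
  refine tri_step A r c hr (IH _ (fun i j => hs _ _) ?_)
  have := card_sub A r c hp
  omega

theorem tri_of_card {n : ℕ} : ∀ A : Matrix (Fin n) (Fin n) ℤ, IsSign A →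
    (neg A).card ≤ n + 3 → Tri A := by
  induction n with
  | zero => intro A _ _; exact ⟨1, 1, fun _ => 1, fun _ => Or.inl rfl, fun i => i.elim0⟩
  | succ n IH =>
    intro A hs hcard
    by_cases hc : ∃ c, (colneg A c).card ≤ 1
    · obtain ⟨c, hc⟩ := hc
      exact step_of_col IH A hs hcard c hc
    · push Not at hc
      have h2 : 2 * (n + 1) ≤ (neg A).card := by
        rw [card_neg_eq]
        calc 2 * (n+1) = ∑ _j : Fin (n+1), 2 := by simp [mul_comm]
          _ ≤ _ := Finset.sum_le_sum fun j _ => hc j
      have hn : n + 1 ≤ 3 := by omega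
      -- pass to the negative matrix
      have hcn : ∀ j, (colneg (-A) j).card + (colneg A j).card = n + 1 := by
        intro j
        have hd : Disjoint (colneg (-A) j) (colneg A j) := by
          rw [Finset.disjoint_left]
          intro i h1 h2
          simp only [colneg, Finset.mem_filter, Finset.mem_univ, true_and,
            Matrix.neg_apply] at h1 h2
          rw [h2] at h1
          norm_num at h1
        rw [← Finset.card_union_of_disjoint hd]
        have : colneg (-A) j ∪ colneg A j = univ := by
          ext i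
          simp only [colneg, Finset.mem_union, Finset.mem_filter, Finset.mem_univ, true_and,
            Matrix.neg_apply, iff_true]
          rcases hs i j with h | h
          · left; simp [h]
          · right; exact h
        rw [this, Finset.card_univ, Fintype.card_fin]
      have hcol : ∀ j, (colneg (-A) j).card ≤ 1 := by
        intro j
        have h1 := hcn j
        have h3 := hc j
        omega
      refine tri_neg (step_of_col IH (-A) (fun i j => ?_) ?_ 0 (hcol 0))
      · rcases hs i j with h | h <;> simp [h]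
      · rw [card_neg_eq]
        calc ∑ j, (colneg (-A) j).card ≤ ∑ _j : Fin (n+1), 1 :=
              Finset.sum_le_sum fun j _ => hcol j
          _ = n + 1 := by simp
          _ ≤ n + 1 + 3 := by omega

end Pool.Agent.R65.UT
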