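import Pool.Agent.R65.UT.Flip
import Pool.Agent.R65.UT.Few

namespace Pool.Agent.R65.UT

open Finset Matrix

/-- the numerical part -/
lemma numeric (n q m Y K X : ℕ) (hn : 6 ≤ n) (hq : n ≤ 2 * q + 1)
    (hK : K * (4 * ((n - 2) * (n - 3))) ≤ n * (n - 1) * ((n - 2) * (n - 3) + K))
    (h1 : q * Y ≤ (n - 1) * K) (h2 : n * m ≤ Y) : m ≤ n + 3 := by
  obtain ⟨k, rfl⟩ : ∃ k, n = k + 6 := ⟨n - 6, by omega⟩
  have e1 : k + 6 - 2 = k + 4 := by omega
  have e2 : k + 6 - 3 = k + 3 := by omega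
  have e3 : k + 6 - 1 = k + 5 := by omega
  rw [e1, e2, e3] at hK
  rw [e3] at h1
  by_contra hm
  push Not at hm
  have hm' : k + 10 ≤ m := by omega
  -- q * n * (n+4) ≤ (n-1) K
  have h3 : q * ((k + 6) * (k + 10)) ≤ (k + 5) * K := by
    calc q * ((k+6) * (k+10)) ≤ q * ((k+6) * m) :=
          Nat.mul_le_mul_left _ (Nat.mul_le_mul_left _ hm')
      _ ≤ q * Y := Nat.mul_le_mul_left _ h2
      _ ≤ _ := h1
  have hq' : k + 5 ≤ 2 * q := by omega
  have h4 : (k + 5) * ((k + 6) * (k + 10)) ≤ 2 * ((k + 5) * K) := by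
    calc (k + 5) * ((k + 6) * (k + 10)) ≤ (2 * q) * ((k+6) * (k+10)) :=
          Nat.mul_le_mul_right _ hq'
      _ = 2 * (q * ((k + 6) * (k + 10))) := by ring
      _ ≤ _ := Nat.mul_le_mul_left _ h3
  have h5 : (k + 6) * (k + 10) ≤ 2 * K := by
    have : (k + 5) * ((k + 6) * (k + 10)) ≤ (k + 5) * (2 * K) := by
      calc _ ≤ 2 * ((k + 5) * K) := h4
        _ = _ := by ring
    exact Nat.le_of_mul_le_mul_left this (by omega)
  -- K (4 (k+4)(k+3) - (k+6)(k+5)) ≤ (k+6)(k+5)(k+4)(k+3)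
  have h6 : K * (3 * k ^ 2 + 17 * k + 18) ≤ (k + 6) * (k + 5) * ((k + 4) * (k + 3)) := by
    nlinarith
  have h7 : (k + 6) * (k + 10) * (3 * k ^ 2 + 17 * k + 18) ≤
      2 * ((k + 6) * (k + 5) * ((k + 4) * (k + 3))) := by
    calc (k + 6) * (k + 10) * (3 * k ^ 2 + 17 * k + 18)
        ≤ 2 * K * (3 * k ^ 2 + 17 * k + 18) := Nat.mul_le_mul_right _ h5
      _ = 2 * (K * (3 * k ^ 2 + 17 * k + 18)) := by ring
      _ ≤ _ := Nat.mul_le_mul_left _ h6
  nlinarith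

/-- the two sequences of rows of the pairing -/
def ra {n q : ℕ} (h : 2 * q ≤ n) (t : Fin q) : Fin n := ⟨2 * t.1, by omega⟩
def rb {n q : ℕ} (h : 2 * q ≤ n) (t : Fin q) : Fin n := ⟨2 * t.1 + 1, by omega⟩

lemma rab_inj {n q : ℕ} (h : 2 * q ≤ n) : Function.Injective (Sum.elim (ra h) (rb h)) := by
  intro u v huv
  rcases u with u | u <;> rcases v with v | v <;>
    simp only [Sum.elim_inl, Sum.elim_inr, ra, rb, Fin.mk.injEq] at huv
  · congr 1; exact Fin.ext (by omega)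
  · omega
  · omega
  · congr 1; exact Fin.ext (by omega)

lemma xx_self {n : ℕ} (A : Matrix (Fin n) (Fin n) ℤ) (hA : ∀ i j, A i j = 1 ∨ A i j = -1)
    (i : Fin n) : xx A i i = 0 := by
  unfold xx sep
  refine Finset.sum_eq_zero fun x _ => Finset.sum_eq_zero fun y _ => ?_
  rcases hA i x with h | h <;> rcases hA i y with h' | h' <;> simp [h, h']

/-- few negative entries after switching, for n ≥ 6 and large permanent -/
theorem few_of_large (hP : StmPair) (hS : StmSecond) (hC : StmCenter) (n : ℕ) (hn : 6 ≤ n)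
    (A : Matrix (Fin n) (Fin n) ℤ) (hA : ∀ i j, A i j = 1 ∨ A i j = -1)
    (hbig : 3 * (n.factorial : ℤ) ≤ 4 * |A.permanent|) :
    ∃ ε δ : Fin n → ℤ, (∀ i, ε i = 1 ∨ ε i = -1) ∧ (∀ j, δ j = 1 ∨ δ j = -1) ∧
      (univ.filter fun p : Fin n × Fin n => ε p.1 * A p.1 p.2 * δ p.2 = -1).card ≤ n + 3 := by
  set q := n / 2 with hq
  have h2q : 2 * q ≤ n := by omega
  have hq1 : n ≤ 2 * q + 1 := by omega
  -- the maximal value of the sums over the pairings
  let S : Equiv.Perm (Fin n) → ℕ := fun ρ => ∑ t, xx A (ρ (ra h2q t)) (ρ (rb h2q t))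
  obtain ⟨ρ0, _, hρ0⟩ := Finset.exists_max_image (univ : Finset (Equiv.Perm (Fin n))) S
    ⟨1, Finset.mem_univ _⟩
  have hK : S ρ0 * (4 * ((n - 2) * (n - 3))) ≤ n * (n - 1) * ((n - 2) * (n - 3) + S ρ0) := by
    have hinj : Function.Injective
        (Sum.elim (fun t => ρ0 (ra h2q t)) (fun t => ρ0 (rb h2q t))) := by
      have : Sum.elim (fun t => ρ0 (ra h2q t)) (fun t => ρ0 (rb h2q t))
          = ρ0 ∘ Sum.elim (ra h2q) (rb h2q) := by
        funext u; rcases u with u | u <;> rfl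
      rw [this]
      exact ρ0.injective.comp (rab_inj h2q)
    refine hS n q A hn _ _ hinj ?_
    have hp := hP n q A hA _ _ hinj
    have hsum := Finset.card_filter_add_card_filter_not (s := (univ : Finset (Equiv.Perm (Fin n))))
      (fun σ : Equiv.Perm (Fin n) => ∀ t, sep A (ρ0 (ra h2q t)) (ρ0 (rb h2q t))
        (σ (ρ0 (ra h2q t))) (σ (ρ0 (rb h2q t))) = 0)
    rw [Finset.card_univ, Fintype.card_perm, Fintype.card_fin] at hsum
    have hsum' := congrArg (fun m : ℕ => (m : ℤ)) hsum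
    simp only [Nat.cast_add] at hsum'
    have : (4 * ((univ.filter fun σ : Equiv.Perm (Fin n) =>
        ¬ ∀ t, sep A (ρ0 (ra h2q t)) (ρ0 (rb h2q t)) (σ (ρ0 (ra h2q t))) (σ (ρ0 (rb h2q t))) = 0).card
          : ℤ)) ≤ (n.factorial : ℤ) := by
      linarith
    exact_mod_cast this
  obtain ⟨c, hc⟩ := hC n q (ra h2q) (rb h2q) (rab_inj h2q) (by omega) (xx A) (S ρ0)
    (xx_self A hA) (fun ρ => hρ0 ρ (Finset.mem_univ _))
  obtain ⟨ε, δ, hε, hδ, hcount⟩ := flip n A hA c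
  exact ⟨ε, δ, hε, hδ, numeric n q _ _ _ 0 hn hq1 hK hc hcount⟩

end Pool.Agent.R65.UT
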