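import Pool.Agent.R65.UT.Stm

namespace Pool.Agent.R65.UT

open Finset Matrix

lemma sep_sum {n : ℕ} (z : Fin n → ℤ) (hz : ∀ x, z x = 1 ∨ z x = -1) (s : ℤ)
    (hs : s = 1 ∨ s = -1)
    (hle : 2 * (univ.filter fun x => z x = -s).card ≤ n) :
    n * (univ.filter fun x => z x = -s).card ≤ ∑ x, ∑ y, (if z x = z y then 0 else 1) := by
  set S := univ.filter fun x => z x = -s with hS
  set T := univ.filter fun x => z x = s with hT
  have hne : s ≠ -s := by rcases hs with h | h <;> rw [h] <;> norm_num
  have hdis : Disjoint S T := by
    rw [Finset.disjoint_left]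
    intro x h1 h2
    simp only [hS, hT, Finset.mem_filter, Finset.mem_univ, true_and] at h1 h2
    exact hne (h2.symm.trans h1)
  have hun : S ∪ T = univ := by
    ext x
    simp only [hS, hT, Finset.mem_union, Finset.mem_filter, Finset.mem_univ, true_and, iff_true]
    rcases hz x with h | h <;> rcases hs with h' | h' <;> simp [h, h']
  have hcard : S.card + T.card = n := by
    rw [← Finset.card_union_of_disjoint hdis, hun, Finset.card_univ, Fintype.card_fin]
  have hrow1 : ∀ x ∈ S, (∑ y, (if z x = z y then 0 else 1)) = T.card := by
    intro x hx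
    simp only [hS, Finset.mem_filter, Finset.mem_univ, true_and] at hx
    rw [hT, Finset.card_filter]
    refine Finset.sum_congr rfl fun y _ => ?_
    rw [hx]
    rcases hz y with h | h <;> rcases hs with h' | h' <;> rw [h, h'] <;> norm_num
  have hrow2 : ∀ x ∈ T, (∑ y, (if z x = z y then 0 else 1)) = S.card := by
    intro x hx
    simp only [hT, Finset.mem_filter, Finset.mem_univ, true_and] at hx
    rw [hS, Finset.card_filter]
    refine Finset.sum_congr rfl fun y _ => ?_
    rw [hx]
    rcases hz y with h | h <;> rcases hs with h' | h' <;> rw [h, h'] <;> norm_num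
  have htot : (∑ x, ∑ y, (if z x = z y then 0 else 1)) = S.card * T.card + T.card * S.card := by
    rw [← hun, Finset.sum_union hdis]
    rw [hun]
    rw [Finset.sum_congr rfl hrow1, Finset.sum_congr rfl hrow2]
    simp
  rw [htot]
  nlinarith

theorem flip : StmFlip := by
  intro n A hA c
  -- choose the sign of each row
  let z : Fin n → Fin n → ℤ := fun i x => A i x * A c x
  have hz : ∀ i x, z i x = 1 ∨ z i x = -1 := by
    intro i x
    rcases hA i x with h | h <;> rcases hA c x with h' | h' <;> simp [z, h, h']
  have hchoice : ∀ i, ∃ s : ℤ, (s = 1 ∨ s = -1) ∧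
      2 * (univ.filter fun x => z i x = -s).card ≤ n := by
    intro i
    by_cases h : 2 * (univ.filter fun x => z i x = -1).card ≤ n
    · exact ⟨1, Or.inl rfl, h⟩
    · refine ⟨-1, Or.inr rfl, ?_⟩
      have hdis : Disjoint (univ.filter fun x => z i x = -1) (univ.filter fun x => z i x = 1) := by
        rw [Finset.disjoint_left]
        intro x h1 h2
        simp only [Finset.mem_filter, Finset.mem_univ, true_and] at h1 h2
        rw [h1] at h2
        norm_num at h2
      have hun : (univ.filter fun x => z i x = -1) ∪ (univ.filter fun x => z i x = 1) = univ := by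
        ext x
        simp only [Finset.mem_union, Finset.mem_filter, Finset.mem_univ, true_and, iff_true]
        exact (hz i x).symm
      have hcard := Finset.card_union_of_disjoint hdis
      rw [hun, Finset.card_univ, Fintype.card_fin] at hcard
      simp only [neg_neg]
      omega
  choose s hs1 hs2 using hchoice
  refine ⟨s, fun x => A c x, hs1, fun x => hA c x, ?_⟩
  have hcard : (univ.filter fun p : Fin n × Fin n => s p.1 * A p.1 p.2 * A c p.2 = -1).card
      = ∑ i, (univ.filter fun x => z i x = - s i).card := by
    simp only [Finset.card_filter]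
    rw [← Finset.univ_product_univ, Finset.sum_product]
    refine Finset.sum_congr rfl fun i _ => Finset.sum_congr rfl fun x _ => ?_
    have : (s i * A i x * A c x = -1) ↔ (z i x = - s i) := by
      rcases hs1 i with h | h
      · rw [h]; simp [z]
      · rw [h]
        simp only [z, neg_neg]
        constructor
        · intro h'; linarith
        · intro h'; linarith
    simp only [this]
  rw [hcard, Finset.mul_sum]
  refine Finset.sum_le_sum fun i _ => ?_
  exact sep_sum (z i) (hz i) (s i) (hs1 i) (hs2 i)

end Pool.Agent.R65.UT
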