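import Pool.Agent.R65.UT.Stm

/-! Pairing of rows -/

namespace Pool.Agent.R65.UT

open Finset Matrix

namespace PairAux

variable {n : ℕ}

/-- the term of the permanent -/
def ss (A : Matrix (Fin n) (Fin n) ℤ) (σ : Equiv.Perm (Fin n)) : ℤ := ∏ i, A i (σ i)

/-- the sign of a pair -/
def ch (A : Matrix (Fin n) (Fin n) ℤ) (a b : Fin n) (σ : Equiv.Perm (Fin n)) : ℤ :=
  A a (σ a) * A b (σ a) * (A a (σ b) * A b (σ b))

theorem sq1 {x : ℤ} (h : x = 1 ∨ x = -1) : x * x = 1 := by
  rcases h with rfl | rfl <;> rfl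

theorem ss_swap (A : Matrix (Fin n) (Fin n) ℤ) (hA : ∀ i j, A i j = 1 ∨ A i j = -1)
    (a b : Fin n) (hab : a ≠ b) (σ : Equiv.Perm (Fin n)) :
    ss A (σ * Equiv.swap a b) = ss A σ * ch A a b σ := by
  classical
  unfold ss ch
  rw [← Finset.mul_prod_erase univ _ (Finset.mem_univ a),
    ← Finset.mul_prod_erase (univ.erase a) _ (Finset.mem_erase.mpr ⟨hab.symm, Finset.mem_univ b⟩),
    ← Finset.mul_prod_erase univ (fun i => A i (σ i)) (Finset.mem_univ a),
    ← Finset.mul_prod_erase (univ.erase a) (fun i => A i (σ i))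
      (Finset.mem_erase.mpr ⟨hab.symm, Finset.mem_univ b⟩)]
  have h1 : ∏ i ∈ (univ.erase a).erase b, A i ((σ * Equiv.swap a b) i) =
      ∏ i ∈ (univ.erase a).erase b, A i (σ i) := by
    refine Finset.prod_congr rfl fun i hi => ?_
    rw [Finset.mem_erase, Finset.mem_erase] at hi
    rw [Equiv.Perm.mul_apply, Equiv.swap_apply_of_ne_of_ne hi.2.1 hi.1]
  rw [h1]
  simp only [Equiv.Perm.mul_apply, Equiv.swap_apply_left, Equiv.swap_apply_right]
  set P := ∏ i ∈ (univ.erase a).erase b, A i (σ i)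
  have q1 := sq1 (hA a (σ a))
  have q2 := sq1 (hA b (σ b))
  have e : A a (σ a) * (A b (σ b) * P) * (A a (σ a) * A b (σ a) * (A a (σ b) * A b (σ b))) =
      (A a (σ a) * A a (σ a)) * (A b (σ b) * A b (σ b)) * (A a (σ b) * (A b (σ a) * P)) := by ring
  rw [e, q1, q2]
  ring

theorem ch_swap_self (A : Matrix (Fin n) (Fin n) ℤ) (a b : Fin n) (σ : Equiv.Perm (Fin n)) :
    ch A a b (σ * Equiv.swap a b) = ch A a b σ := by
  unfold ch
  simp only [Equiv.Perm.mul_apply, Equiv.swap_apply_left, Equiv.swap_apply_right]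
  ring

theorem ch_swap_other (A : Matrix (Fin n) (Fin n) ℤ) (a b c d : Fin n) (σ : Equiv.Perm (Fin n))
    (h1 : c ≠ a) (h2 : c ≠ b) (h3 : d ≠ a) (h4 : d ≠ b) :
    ch A c d (σ * Equiv.swap a b) = ch A c d σ := by
  unfold ch
  simp only [Equiv.Perm.mul_apply, Equiv.swap_apply_of_ne_of_ne h1 h2,
    Equiv.swap_apply_of_ne_of_ne h3 h4]

theorem ch_val (A : Matrix (Fin n) (Fin n) ℤ) (hA : ∀ i j, A i j = 1 ∨ A i j = -1)
    (a b : Fin n) (σ : Equiv.Perm (Fin n)) :
    1 + ch A a b σ = if sep A a b (σ a) (σ b) = 0 then 2 else 0 := by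
  unfold ch sep
  rcases hA a (σ a) with h1 | h1 <;> rcases hA b (σ a) with h2 | h2 <;>
    rcases hA a (σ b) with h3 | h3 <;> rcases hA b (σ b) with h4 | h4 <;>
    simp [h1, h2, h3, h4]

theorem ss_abs (A : Matrix (Fin n) (Fin n) ℤ) (hA : ∀ i j, A i j = 1 ∨ A i j = -1)
    (σ : Equiv.Perm (Fin n)) : |ss A σ| = 1 := by
  unfold ss
  rw [Finset.abs_prod]
  refine Finset.prod_eq_one fun i _ => ?_
  rcases hA i (σ i) with h | h <;> rw [h] <;> rfl

end PairAux

open PairAux

theorem pair : StmPair := by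
  classical
  intro n q A hA a b hinj
  have ha : Function.Injective a := fun s t h => by
    have := @hinj (Sum.inl s) (Sum.inl t) h
    exact Sum.inl_injective this
  have hb : Function.Injective b := fun s t h => by
    have := @hinj (Sum.inr s) (Sum.inr t) h
    exact Sum.inr_injective this
  have hab : ∀ s t, a s ≠ b t := fun s t h => by
    have := @hinj (Sum.inl s) (Sum.inr t) h
    exact absurd this (by simp)
  have hperm : A.permanent = ∑ σ, ss A σ := by
    rw [← Matrix.permanent_transpose]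
    rfl
  have key : ∀ T : Finset (Fin q), ∑ σ, ss A σ * ∏ t ∈ T, (1 + ch A (a t) (b t) σ) =
      2 ^ T.card * ∑ σ, ss A σ := by
    intro T
    induction T using Finset.induction_on with
    | empty => simp
    | insert u T hu ih =>
      have e1 : ∀ σ : Equiv.Perm (Fin n), ss A σ * ∏ t ∈ insert u T, (1 + ch A (a t) (b t) σ) =
          ss A σ * ∏ t ∈ T, (1 + ch A (a t) (b t) σ) +
          ss A (σ * Equiv.swap (a u) (b u)) *
            ∏ t ∈ T, (1 + ch A (a t) (b t) (σ * Equiv.swap (a u) (b u))) := by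
        intro σ
        have e2 : ∏ t ∈ T, (1 + ch A (a t) (b t) (σ * Equiv.swap (a u) (b u))) =
            ∏ t ∈ T, (1 + ch A (a t) (b t) σ) := by
          refine Finset.prod_congr rfl fun t ht => ?_
          have htu : t ≠ u := fun h => hu (h ▸ ht)
          rw [ch_swap_other A (a u) (b u) (a t) (b t) σ (fun h => htu (ha h)) (hab t u)
            (hab u t).symm (fun h => htu (hb h))]
        rw [e2, ss_swap A hA _ _ (hab u u), Finset.prod_insert hu]
        ring
      rw [Finset.sum_congr rfl fun σ _ => e1 σ, Finset.sum_add_distrib]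
      have e3 : ∑ σ : Equiv.Perm (Fin n), ss A (σ * Equiv.swap (a u) (b u)) *
            ∏ t ∈ T, (1 + ch A (a t) (b t) (σ * Equiv.swap (a u) (b u))) =
          ∑ σ, ss A σ * ∏ t ∈ T, (1 + ch A (a t) (b t) σ) :=
        Equiv.sum_comp (Equiv.mulRight (Equiv.swap (a u) (b u)))
          (fun σ : Equiv.Perm (Fin n) => ss A σ * ∏ t ∈ T, (1 + ch A (a t) (b t) σ))
      rw [e3, ih, Finset.card_insert_of_notMem hu, pow_succ]
      ring
  have h1 := key univ
  rw [Finset.card_univ, Fintype.card_fin, ← hperm] at h1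
  have hpos : (0 : ℤ) < 2 ^ q := by positivity
  have h2 : ∀ σ : Equiv.Perm (Fin n), ∏ t, (1 + ch A (a t) (b t) σ) =
      if ∀ t, sep A (a t) (b t) (σ (a t)) (σ (b t)) = 0 then 2 ^ q else 0 := by
    intro σ
    rw [Finset.prod_congr rfl fun t _ => ch_val A hA (a t) (b t) σ]
    split_ifs with h
    · rw [Finset.prod_congr rfl fun t _ => if_pos (h t)]
      simp
    · push Not at h
      obtain ⟨t, ht⟩ := h
      exact Finset.prod_eq_zero (Finset.mem_univ t) (if_neg ht)
  have h3 : |2 ^ q * A.permanent| ≤ 2 ^ q * ((univ.filter fun σ : Equiv.Perm (Fin n) =>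
      ∀ t, sep A (a t) (b t) (σ (a t)) (σ (b t)) = 0).card : ℤ) := by
    rw [← h1]
    refine (Finset.abs_sum_le_sum_abs _ _).trans ?_
    have h4 : ∀ σ : Equiv.Perm (Fin n), |ss A σ * ∏ t, (1 + ch A (a t) (b t) σ)| =
        if ∀ t, sep A (a t) (b t) (σ (a t)) (σ (b t)) = 0 then 2 ^ q else 0 := by
      intro σ
      rw [abs_mul, ss_abs A hA, one_mul, h2]
      split_ifs
      · exact abs_of_pos hpos
      · exact abs_zero
    rw [Finset.sum_congr rfl fun σ _ => h4 σ, ← Finset.sum_filter, Finset.sum_const,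
      nsmul_eq_mul, mul_comm]
  rw [abs_mul, abs_of_pos hpos] at h3
  exact le_of_mul_le_mul_left h3 hpos

end Pool.Agent.R65.UT
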