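import Pool.Agent.R65.UT.Stm

/-! Second moment -/

namespace Pool.Agent.R65.UT

open Finset Matrix

theorem second_sep01 {n : ℕ} (A : Matrix (Fin n) (Fin n) ℤ) (i j x y : Fin n) :
    sep A i j x y * sep A i j x y = sep A i j x y := by
  unfold sep
  split_ifs <;> rfl

theorem second_sepxx {n : ℕ} (A : Matrix (Fin n) (Fin n) ℤ) (i j x : Fin n) :
    sep A i j x x = 0 := by
  unfold sep
  rw [if_pos rfl]

theorem second (h2 : StmCount2) (h4 : StmCount4) : StmSecond := by
  classical
  intro n q A hn a b hinj hk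
  have ha : Function.Injective a := fun s t h => by
    have := @hinj (Sum.inl s) (Sum.inl t) h
    exact Sum.inl_injective this
  have hb : Function.Injective b := fun s t h => by
    have := @hinj (Sum.inr s) (Sum.inr t) h
    exact Sum.inr_injective this
  have hab : ∀ s t, a s ≠ b t := fun s t h => by
    have := @hinj (Sum.inl s) (Sum.inr t) h
    exact absurd this (by simp)
  obtain ⟨e, he⟩ : ∃ e : Fin q → Equiv.Perm (Fin n) → ℕ,
      ∀ t σ, e t σ = sep A (a t) (b t) (σ (a t)) (σ (b t)) := ⟨_, fun _ _ => rfl⟩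
  obtain ⟨N, hN⟩ : ∃ N : Equiv.Perm (Fin n) → ℕ, ∀ σ, N σ = ∑ t, e t σ := ⟨_, fun _ => rfl⟩
  set X := ∑ t, xx A (a t) (b t) with hX
  have m1 : ∀ t, n * (n - 1) * ∑ σ, e t σ = n.factorial * xx A (a t) (b t) := by
    intro t
    have h := h2 n (a t) (b t) (hab t t) (sep A (a t) (b t)) (second_sepxx A _ _)
    rw [Finset.sum_congr rfl fun σ _ => he t σ]
    exact h
  have m2 : n * (n - 1) * ∑ σ, N σ = n.factorial * X := by
    rw [Finset.sum_congr rfl fun σ _ => hN σ, Finset.sum_comm, Finset.mul_sum,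
      Finset.sum_congr rfl fun t _ => m1 t, ← Finset.mul_sum]
  have m3 : ∀ s t, s ≠ t → n * (n - 1) * (n - 2) * (n - 3) * ∑ σ, e s σ * e t σ ≤
      n.factorial * (xx A (a s) (b s) * xx A (a t) (b t)) := by
    intro s t hst
    have h := h4 n (a s) (b s) (a t) (b t) (hab s s) (fun h => hst (ha h)) (hab s t)
      (hab t s).symm (fun h => hst (hb h)) (hab t t) (sep A (a s) (b s)) (sep A (a t) (b t))
      (second_sepxx A _ _) (second_sepxx A _ _)
    rw [Finset.sum_congr rfl fun σ _ => by rw [he s σ, he t σ]]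
    exact h
  have m4 : ∀ s t, n * (n - 1) * (n - 2) * (n - 3) * ∑ σ, e s σ * e t σ ≤
      n.factorial * ((if s = t then (n - 2) * (n - 3) * xx A (a s) (b s) else 0) +
        xx A (a s) (b s) * xx A (a t) (b t)) := by
    intro s t
    by_cases hst : s = t
    · subst hst
      rw [if_pos rfl]
      have e1 : ∑ σ, e s σ * e s σ = ∑ σ, e s σ :=
        Finset.sum_congr rfl fun σ _ => by rw [he]; exact second_sep01 A _ _ _ _
      rw [e1]
      have e2 : n * (n - 1) * (n - 2) * (n - 3) * ∑ σ, e s σ =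
          (n - 2) * (n - 3) * (n * (n - 1) * ∑ σ, e s σ) := by ring
      rw [e2, m1, mul_add]
      have e3 : (n - 2) * (n - 3) * (n.factorial * xx A (a s) (b s)) =
          n.factorial * ((n - 2) * (n - 3) * xx A (a s) (b s)) := by ring
      rw [e3]
      exact Nat.le_add_right _ _
    · rw [if_neg hst, zero_add]
      exact m3 s t hst
  have m5 : n * (n - 1) * (n - 2) * (n - 3) * ∑ σ, (N σ) ^ 2 ≤
      n.factorial * ((n - 2) * (n - 3) * X + X ^ 2) := by
    have e1 : ∑ σ, (N σ) ^ 2 = ∑ s, ∑ t, ∑ σ, e s σ * e t σ := by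
      have e2 : ∀ σ, (N σ) ^ 2 = ∑ s, ∑ t, e s σ * e t σ := by
        intro σ
        rw [hN, sq, Finset.sum_mul_sum]
      rw [Finset.sum_congr rfl fun σ _ => e2 σ, Finset.sum_comm]
      refine Finset.sum_congr rfl fun s _ => ?_
      rw [Finset.sum_comm]
    have e3 : ∑ s : Fin q, ∑ t : Fin q, ((if s = t then (n - 2) * (n - 3) * xx A (a s) (b s) else 0) +
        xx A (a s) (b s) * xx A (a t) (b t)) = (n - 2) * (n - 3) * X + X ^ 2 := by
      rw [Finset.sum_congr rfl fun s _ => Finset.sum_add_distrib, Finset.sum_add_distrib]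
      congr 1
      · rw [hX, Finset.mul_sum]
        refine Finset.sum_congr rfl fun s _ => ?_
        rw [Finset.sum_ite_eq]
        simp
      · rw [sq, hX, Finset.sum_mul_sum]
    rw [e1, ← e3, Finset.mul_sum, Finset.mul_sum]
    refine Finset.sum_le_sum fun s _ => ?_
    rw [Finset.mul_sum, Finset.mul_sum]
    exact Finset.sum_le_sum fun t _ => m4 s t
  set Z := univ.filter fun σ : Equiv.Perm (Fin n) =>
    ¬ ∀ t, sep A (a t) (b t) (σ (a t)) (σ (b t)) = 0 with hZ
  have m6 : (∑ σ, N σ) ^ 2 ≤ Z.card * ∑ σ, (N σ) ^ 2 := by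
    have e1 : ∑ σ, N σ = ∑ σ ∈ Z, N σ := by
      symm
      rw [hZ]
      apply Finset.sum_filter_of_ne
      intro σ _ hne hall
      apply hne
      rw [hN]
      exact Finset.sum_eq_zero fun t _ => by rw [he]; exact hall t
    rw [e1]
    refine (sq_sum_le_card_mul_sum_sq).trans ?_
    apply Nat.mul_le_mul_left
    exact Finset.sum_le_sum_of_subset (Finset.subset_univ _)
  -- combine
  generalize hS : ∑ σ, N σ = Sg at *
  generalize hQ : ∑ σ, (N σ) ^ 2 = Q at *
  generalize hkk : Z.card = k at *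
  have hF : 0 < n.factorial := Nat.factorial_pos n
  generalize n.factorial = F at *
  have d1 : n * (n - 1) * (n - 2) * (n - 3) = n * (n - 1) * ((n - 2) * (n - 3)) := by ring
  rw [d1] at m5
  generalize n * (n - 1) = P at *
  generalize (n - 2) * (n - 3) = D at *
  rcases Nat.eq_zero_or_pos X with h0 | h0
  · rw [h0, zero_mul]
    exact Nat.zero_le _
  · have f1 : (F ^ 2 * X) * (X * (4 * D)) ≤ (F ^ 2 * X) * (P * (D + X)) := by
      calc (F ^ 2 * X) * (X * (4 * D)) = 4 * (F * X) ^ 2 * D := by ring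
        _ = 4 * (P * Sg) ^ 2 * D := by rw [m2]
        _ = P ^ 2 * D * 4 * Sg ^ 2 := by ring
        _ ≤ P ^ 2 * D * 4 * (k * Q) := Nat.mul_le_mul_left _ m6
        _ = (4 * k) * (P ^ 2 * D * Q) := by ring
        _ ≤ F * (P ^ 2 * D * Q) := Nat.mul_le_mul_right _ hk
        _ = (F * P) * (P * D * Q) := by ring
        _ ≤ (F * P) * (F * (D * X + X ^ 2)) := Nat.mul_le_mul_left _ m5
        _ = (F ^ 2 * X) * (P * (D + X)) := by ring
    exact Nat.le_of_mul_le_mul_left f1 (by positivity)

end Pool.Agent.R65.UT
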