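import Pool.Agent.R65.UT.Fin

namespace Pool.Agent.R65.UT

open Finset Matrix

theorem small (n : ℕ) (hn : n ≤ 5) (A : Matrix (Fin n) (Fin n) ℤ)
    (hA : ∀ i j, A i j = 1 ∨ A i j = -1) :
    ∃ ε δ : Fin n → ℤ, (∀ i, ε i = 1 ∨ ε i = -1) ∧ (∀ j, δ j = 1 ∨ δ j = -1) ∧
      (univ.filter fun p : Fin n × Fin n => ε p.1 * A p.1 p.2 * δ p.2 = -1).card ≤ n + 3 := by
  rcases Nat.eq_zero_or_pos n with rfl | hpos
  · exact ⟨fun _ => 1, fun _ => 1, fun _ => Or.inl rfl, fun _ => Or.inl rfl, by simp⟩
  let c : Fin n := ⟨0, hpos⟩
  let z : Fin n → Fin n → ℤ := fun i x => A i x * A c x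
  have hz : ∀ i x, z i x = 1 ∨ z i x = -1 := by
    intro i x
    rcases hA i x with h | h <;> rcases hA c x with h' | h' <;> simp [z, h, h']
  have hzc : ∀ x, z c x = 1 := by
    intro x
    rcases hA c x with h | h <;> simp [z, h]
  have hchoice : ∀ i, ∃ s : ℤ, (s = 1 ∨ s = -1) ∧
      2 * (univ.filter fun x => z i x = -s).card ≤ n := by
    intro i
    by_cases h : 2 * (univ.filter fun x => z i x = -1).card ≤ n
    · exact ⟨1, Or.inl rfl, h⟩
    · refine ⟨-1, Or.inr rfl, ?_⟩
      have hdis : Disjoint (univ.filter fun x => z i x = -1) (univ.filter fun x => z i x = 1) := by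
        rw [Finset.disjoint_left]
        intro x h1 h2
        simp only [Finset.mem_filter, Finset.mem_univ, true_and] at h1 h2
        rw [h1] at h2
        norm_num at h2
      have hun : (univ.filter fun x => z i x = -1) ∪ (univ.filter fun x => z i x = 1) = univ := by
        ext x
        simp only [Finset.mem_union, Finset.mem_filter, Finset.mem_univ, true_and, iff_true]
        exact (hz i x).symm
      have hcard := Finset.card_union_of_disjoint hdis
      rw [hun, Finset.card_univ, Fintype.card_fin] at hcard
      simp only [neg_neg]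
      omega
  choose s hs1 hs2 using hchoice
  refine ⟨s, fun x => A c x, hs1, fun x => hA c x, ?_⟩
  have hcard : (univ.filter fun p : Fin n × Fin n => s p.1 * A p.1 p.2 * A c p.2 = -1).card
      = ∑ i, (univ.filter fun x => z i x = - s i).card := by
    simp only [Finset.card_filter]
    rw [← Finset.univ_product_univ, Finset.sum_product]
    refine Finset.sum_congr rfl fun i _ => Finset.sum_congr rfl fun x _ => ?_
    have : (s i * A i x * A c x = -1) ↔ (z i x = - s i) := by
      rcases hs1 i with h | h
      · rw [h]; simp [z]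
      · rw [h]
        simp only [z, neg_neg]
        constructor
        · intro h'; linarith
        · intro h'; linarith
    simp only [this]
  rw [hcard]
  have hc0 : (univ.filter fun x => z c x = - s c).card = 0 := by
    rcases hs1 c with h | h
    · rw [h, Finset.card_eq_zero, Finset.filter_eq_empty_iff]
      intro x _
      rw [hzc x]; norm_num
    · exfalso
      have h2 := hs2 c
      rw [h] at h2
      have : (univ.filter fun x => z c x = - (-1 : ℤ)) = univ := by
        ext x; simp [hzc x]
      rw [this, Finset.card_univ, Fintype.card_fin] at h2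
      omega
  rw [← Finset.add_sum_erase univ _ (Finset.mem_univ c), hc0, zero_add]
  have hb : ∀ i ∈ univ.erase c, (univ.filter fun x => z i x = - s i).card ≤ n / 2 := by
    intro i _
    have := hs2 i
    omega
  refine (Finset.sum_le_sum hb).trans ?_
  rw [Finset.sum_const, Finset.card_erase_of_mem (Finset.mem_univ c), Finset.card_univ,
    Fintype.card_fin, smul_eq_mul]
  interval_cases n <;> norm_num

end Pool.Agent.R65.UT
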