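import Mathlib

/-! Statements of the pieces of the threshold theorem (MP_c96c3a_co). -/

namespace Pool.Agent.R65.UT

open Finset Matrix

/-- 0 if the product of rows `i`, `j` takes the same value in columns `x`, `y`; else 1 -/
def sep {n : ℕ} (A : Matrix (Fin n) (Fin n) ℤ) (i j x y : Fin n) : ℕ :=
  if A i x * A j x = A i y * A j y then 0 else 1

/-- number of ordered pairs of columns separated by rows `i`, `j` -/
def xx {n : ℕ} (A : Matrix (Fin n) (Fin n) ℤ) (i j : Fin n) : ℕ := ∑ x, ∑ y, sep A i j x y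

def StmPair : Prop := ∀ (n q : ℕ) (A : Matrix (Fin n) (Fin n) ℤ),
  (∀ i j, A i j = 1 ∨ A i j = -1) → ∀ a b : Fin q → Fin n, Function.Injective (Sum.elim a b) →
  |A.permanent| ≤ ((univ.filter fun σ : Equiv.Perm (Fin n) =>
    ∀ t, sep A (a t) (b t) (σ (a t)) (σ (b t)) = 0).card : ℤ)

def StmCount2 : Prop := ∀ (n : ℕ) (a b : Fin n), a ≠ b → ∀ f : Fin n → Fin n → ℕ,
  (∀ x, f x x = 0) →
  n * (n - 1) * ∑ σ : Equiv.Perm (Fin n), f (σ a) (σ b) = n.factorial * ∑ x, ∑ y, f x y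

def StmCount4 : Prop := ∀ (n : ℕ) (a b c d : Fin n), a ≠ b → a ≠ c → a ≠ d → b ≠ c → b ≠ d →
  c ≠ d → ∀ f g : Fin n → Fin n → ℕ, (∀ x, f x x = 0) → (∀ x, g x x = 0) →
  n * (n - 1) * (n - 2) * (n - 3) * ∑ σ : Equiv.Perm (Fin n), f (σ a) (σ b) * g (σ c) (σ d)
    ≤ n.factorial * ((∑ x, ∑ y, f x y) * (∑ x, ∑ y, g x y))

def StmSecond : Prop := ∀ (n q : ℕ) (A : Matrix (Fin n) (Fin n) ℤ), 6 ≤ n →
  ∀ a b : Fin q → Fin n, Function.Injective (Sum.elim a b) →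
  4 * (univ.filter fun σ : Equiv.Perm (Fin n) =>
    ¬ ∀ t, sep A (a t) (b t) (σ (a t)) (σ (b t)) = 0).card ≤ n.factorial →
  (∑ t, xx A (a t) (b t)) * (4 * ((n - 2) * (n - 3))) ≤
    n * (n - 1) * ((n - 2) * (n - 3) + ∑ t, xx A (a t) (b t))

def StmCenter : Prop := ∀ (n q : ℕ) (a b : Fin q → Fin n), Function.Injective (Sum.elim a b) →
  0 < n → ∀ (x : Fin n → Fin n → ℕ) (K : ℕ), (∀ i, x i i = 0) →
  (∀ ρ : Equiv.Perm (Fin n), ∑ t, x (ρ (a t)) (ρ (b t)) ≤ K) →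
  ∃ c, q * ∑ i, x i c ≤ (n - 1) * K

def StmFlip : Prop := ∀ (n : ℕ) (A : Matrix (Fin n) (Fin n) ℤ),
  (∀ i j, A i j = 1 ∨ A i j = -1) → ∀ c : Fin n, ∃ ε δ : Fin n → ℤ,
  (∀ i, ε i = 1 ∨ ε i = -1) ∧ (∀ j, δ j = 1 ∨ δ j = -1) ∧
  n * (univ.filter fun p : Fin n × Fin n => ε p.1 * A p.1 p.2 * δ p.2 = -1).card
    ≤ ∑ i, xx A i c

end Pool.Agent.R65.UT
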